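import Pool.Agent.Work.MP_52c914_al.Coord

set_option autoImplicit false

namespace Pool.Agent.Work.MP_52c914_al

universe u v

section T
variable {K : Type u} [Field K] [CharP K 3]

theorem fm_eq (x : G K) (hx : qf x = 0) : fm x = (fm x 7) • (ev 7 : G K) := by
  apply G.ext'
  intro k
  by_cases h : k = 7
  · subst h; simp
  · rw [fmk x k h, hx]; simp [ev_apply, h]

theorem fm_ev7 (a : K) : fm (a • (ev 7 : G K)) = 0 := by
  apply G.ext'
  intro k
  by_cases h : k = 7
  · subst h; simp [fm7]
  · rw [fmk _ k h]; simp [qf]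

theorem fm_ev6 (a : K) : fm (a • (ev 6 : G K)) = a ^ 3 • (ev 6 : G K) := by
  apply G.ext'
  intro k
  by_cases h : k = 7
  · subst h; simp [fm7]
  · rw [fmk _ k h]
    by_cases h6 : k = 6
    · subst h6; simp [qf]; ring
    · simp [h6]

/-- the line spanned by a vector as a Lie subalgebra. -/
def lineSub (v : G K) : LieSubalgebra K (G K) :=
  { Submodule.span K {v} with
    lie_mem' := by
      intro x y hx hy
      obtain ⟨a, rfl⟩ := Submodule.mem_span_singleton.mp hx
      obtain ⟨c, rfl⟩ := Submodule.mem_span_singleton.mp hy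
      rw [smul_lie, lie_smul, lie_self, smul_zero, smul_zero]
      exact Submodule.zero_mem _ }

theorem mem_lineSub (v x : G K) : x ∈ lineSub v ↔ ∃ a : K, a • v = x :=
  Submodule.mem_span_singleton

theorem fm_zero : fm (0 : G K) = 0 := by
  have := fm_ev7 (0 : K)
  simpa using this

theorem eq_zero_of_qf {t : LieSubalgebra K (G K)} (ht : IsTorus K (fm : G K → G K) t) {x : G K}
    (hx : x ∈ t) (hq : qf x = 0) : x = 0 := by
  have h1 := ht.semisimple x hx (lineSub (ev 7))
    (by
      intro y hy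
      obtain ⟨a, rfl⟩ := (mem_lineSub _ _).mp hy
      rw [fm_ev7]
      exact LieSubalgebra.zero_mem _)
    (by
      rw [mem_lineSub]
      exact ⟨fm x 7, (fm_eq x hq).symm⟩)
  obtain ⟨a, rfl⟩ := (mem_lineSub _ _).mp h1
  have h2 := ht.semisimple _ hx ⊥
    (by
      intro y hy
      rw [LieSubalgebra.mem_bot] at hy
      rw [hy, fm_zero]
      exact LieSubalgebra.zero_mem _)
    (by
      rw [fm_ev7]
      exact LieSubalgebra.zero_mem _)
  rwa [LieSubalgebra.mem_bot] at h2

/-- polar form -/
def pf (x y : G K) : K :=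
  2 * (x 6 * y 6) + (x 0 * y 3 + y 0 * x 3) + (x 1 * y 4 + y 1 * x 4) + (x 2 * y 5 + y 2 * x 5)

theorem qf_add (x y : G K) (s : K) : qf (y + s • x) = qf x * (s * s) + pf x y * s + qf y := by
  simp only [qf, pf, G.add_apply, G.smul_apply]
  ring

theorem torus_le [IsAlgClosed K] {t : LieSubalgebra K (G K)} (ht : IsTorus K (fm : G K → G K) t) :
    Module.finrank K t ≤ 1 := by
  by_cases h0 : ∀ x ∈ t, x = 0
  · have : Subsingleton t := ⟨fun a b => by
      apply Subtype.ext
      rw [h0 a a.2, h0 b b.2]⟩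
    rw [Module.finrank_zero_of_subsingleton]
    exact Nat.zero_le _
  · push Not at h0
    obtain ⟨x, hx, hx0⟩ := h0
    have hq : qf x ≠ 0 := fun h => hx0 (eq_zero_of_qf ht hx h)
    refine finrank_le_one (⟨x, hx⟩ : t) ?_
    rintro ⟨y, hy⟩
    obtain ⟨s, hs⟩ : ∃ s : K, qf x * (s * s) + pf x y * s + qf y = 0 := by
      have h2 : NeZero (2 : K) := ⟨by
        intro h2
        have h3 := three_zero K
        have : (1 : K) = 3 - 2 := by norm_num
        rw [h2, h3, sub_zero] at this
        exact one_ne_zero this⟩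
      obtain ⟨d, hd⟩ := IsAlgClosed.exists_pow_nat_eq (discrim (qf x) (pf x y) (qf y)) (n := 2)
        (by norm_num)
      exact exists_quadratic_eq_zero hq ⟨d, by rw [← hd]; ring⟩
    have hmem : y + s • x ∈ t := t.add_mem hy (t.smul_mem s hx)
    have hz := eq_zero_of_qf ht hmem (by rw [qf_add]; exact hs)
    refine ⟨-s, ?_⟩
    apply Subtype.ext
    change -s • x = y
    rw [neg_smul]
    exact neg_eq_of_add_eq_zero_left hz

theorem torus_h : IsTorus K (fm : G K → G K) (lineSub (ev 6)) where
  restricted := by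
    intro x hx
    obtain ⟨a, rfl⟩ := (mem_lineSub _ _).mp hx
    rw [fm_ev6, mem_lineSub]
    exact ⟨_, rfl⟩
  abelian := by
    intro x hx y hy
    obtain ⟨a, rfl⟩ := (mem_lineSub _ _).mp hx
    obtain ⟨c, rfl⟩ := (mem_lineSub _ _).mp hy
    rw [smul_lie, lie_smul, lie_self, smul_zero, smul_zero]
  semisimple := by
    intro x hx s _ hfs
    obtain ⟨a, rfl⟩ := (mem_lineSub _ _).mp hx
    by_cases ha : a = 0
    · subst ha; rw [zero_smul]; exact s.zero_mem
    · rw [fm_ev6] at hfs
      have := s.smul_mem (a * (a ^ 3)⁻¹) hfs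
      rw [smul_smul, mul_assoc, inv_mul_cancel₀ (pow_ne_zero 3 ha), mul_one] at this
      exact this

theorem finrank_line : Module.finrank K (lineSub (ev 6 : G K)) = 1 := by
  apply finrank_span_singleton (K := K) (v := (ev 6 : G K))
  intro h
  have := congrFun h 6
  simp [ev] at this

theorem maxToralRank_eq [IsAlgClosed K] : maxToralRank K (fm : G K → G K) = 1 := by
  unfold maxToralRank
  apply IsGreatest.csSup_eq
  constructor
  · exact ⟨lineSub (ev 6), torus_h, finrank_line⟩
  · rintro n ⟨t, ht, rfl⟩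
    exact torus_le ht

end T

end Pool.Agent.Work.MP_52c914_al
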