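import Mathlib

set_option autoImplicit false

namespace Pool.Agent.Work.MP_52c914_al

universe u v

section Defs

variable (K : Type u) {L : Type v} [Field K] [LieRing L] [LieAlgebra K L] (p : ℕ)

/-- `f` is a `p`-map turning the Lie algebra `L` into a restricted Lie algebra: it is
`p`-semilinear with respect to scalars, `(ad x)^p = ad (f x)`, and it satisfies Jacobson's formula
for `f (x + y)`, expressed in the universal enveloping algebra. -/
structure IsPMap (f : L → L) : Prop where
  smul : ∀ (a : K) (x : L), f (a • x) = a ^ p • f x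
  ad : ∀ x y : L, (LieAlgebra.ad K L x ^ p) y = ⁅f x, y⁆
  add : ∀ x y : L,
    UniversalEnvelopingAlgebra.ι K (f (x + y)) - UniversalEnvelopingAlgebra.ι K (f x)
        - UniversalEnvelopingAlgebra.ι K (f y)
      = (UniversalEnvelopingAlgebra.ι K x + UniversalEnvelopingAlgebra.ι K y) ^ p
        - UniversalEnvelopingAlgebra.ι K x ^ p - UniversalEnvelopingAlgebra.ι K y ^ p

/-- The defining relations `x^p = x^[p] + χ(x)^p` of the reduced enveloping algebra. -/
def redRel (f : L → L) (χ : L →ₗ[K] K) :
    UniversalEnvelopingAlgebra K L → UniversalEnvelopingAlgebra K L → Prop :=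
  fun a b => ∃ x : L, a = UniversalEnvelopingAlgebra.ι K x ^ p ∧
    b = UniversalEnvelopingAlgebra.ι K (f x) + algebraMap K _ (χ x ^ p)

/-- The reduced enveloping algebra `u(L, χ)`. -/
abbrev RedEnv (f : L → L) (χ : L →ₗ[K] K) := RingQuot (redRel K p f χ)

/-- A Lie subalgebra closed under the `p`-map `f`. -/
def IsRestricted (f : L → L) (s : LieSubalgebra K L) : Prop := ∀ x ∈ s, f x ∈ s

/-- `x` is `p`-semisimple: it lies in the restricted subalgebra generated by `f x`, that is, in
every restricted subalgebra containing `f x`. -/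
def IsPSemisimple (f : L → L) (x : L) : Prop :=
  ∀ s : LieSubalgebra K L, IsRestricted K f s → f x ∈ s → x ∈ s

/-- A torus: an abelian restricted subalgebra all of whose elements are `p`-semisimple. -/
structure IsTorus (f : L → L) (t : LieSubalgebra K L) : Prop where
  restricted : IsRestricted K f t
  abelian : ∀ x ∈ t, ∀ y ∈ t, ⁅x, y⁆ = 0
  semisimple : ∀ x ∈ t, IsPSemisimple K f x

/-- The maximal toral rank: the largest dimension of a torus. -/
noncomputable def maxToralRank (f : L → L) : ℕ :=
  sSup {n : ℕ | ∃ t : LieSubalgebra K L, IsTorus K f t ∧ Module.finrank K t = n}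

end Defs

end Pool.Agent.Work.MP_52c914_al
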