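import Pool.Agent.Work.MP_52c914_al.Tables3
import Pool.Agent.Work.MP_52c914_al.Defs

set_option autoImplicit false

namespace Pool.Agent.Work.MP_52c914_al

universe u v

/-! The eight-dimensional algebra -/

/-- underlying space of the example. -/
def G (K : Type u) : Type u := Fin 8 → K

section G
variable {K : Type u} [Field K]

instance : AddCommGroup (G K) := inferInstanceAs (AddCommGroup (Fin 8 → K))
instance : Module K (G K) := inferInstanceAs (Module K (Fin 8 → K))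

@[ext] theorem G.ext' {x y : G K} (h : ∀ k, x k = y k) : x = y := funext h

@[simp] theorem G.add_apply (x y : G K) (k : Fin 8) : (x + y) k = x k + y k := rfl
@[simp] theorem G.sub_apply (x y : G K) (k : Fin 8) : (x - y) k = x k - y k := rfl
@[simp] theorem G.neg_apply (x : G K) (k : Fin 8) : (-x) k = -x k := rfl
@[simp] theorem G.zero_apply (k : Fin 8) : (0 : G K) k = 0 := rfl
@[simp] theorem G.smul_apply (a : K) (x : G K) (k : Fin 8) : (a • x) k = a * x k := rfl

/-- coordinates of the bracket. -/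
def brk (x y : G K) : G K := fun k =>
  match k.val with
  | 0 => -(x 4 * y 5 - x 5 * y 4) - x 6 * y 0 + y 6 * x 0
  | 1 => -(x 5 * y 3 - x 3 * y 5) - x 6 * y 1 + y 6 * x 1
  | 2 => -(x 3 * y 4 - x 4 * y 3) - x 6 * y 2 + y 6 * x 2
  | 3 => (x 1 * y 2 - x 2 * y 1) + x 6 * y 3 - y 6 * x 3
  | 4 => (x 2 * y 0 - x 0 * y 2) + x 6 * y 4 - y 6 * x 4
  | 5 => (x 0 * y 1 - x 1 * y 0) + x 6 * y 5 - y 6 * x 5
  | 6 => x 0 * y 3 - x 3 * y 0 + (x 1 * y 4 - x 4 * y 1) + (x 2 * y 5 - x 5 * y 2)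
  | _ => x 1 * y 3 - x 3 * y 1

theorem brk0 (x y : G K) : brk x y 0 = -(x 4 * y 5 - x 5 * y 4) - x 6 * y 0 + y 6 * x 0 := rfl
theorem brk1 (x y : G K) : brk x y 1 = -(x 5 * y 3 - x 3 * y 5) - x 6 * y 1 + y 6 * x 1 := rfl
theorem brk2 (x y : G K) : brk x y 2 = -(x 3 * y 4 - x 4 * y 3) - x 6 * y 2 + y 6 * x 2 := rfl
theorem brk3 (x y : G K) : brk x y 3 = (x 1 * y 2 - x 2 * y 1) + x 6 * y 3 - y 6 * x 3 := rfl
theorem brk4 (x y : G K) : brk x y 4 = (x 2 * y 0 - x 0 * y 2) + x 6 * y 4 - y 6 * x 4 := rfl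
theorem brk5 (x y : G K) : brk x y 5 = (x 0 * y 1 - x 1 * y 0) + x 6 * y 5 - y 6 * x 5 := rfl
theorem brk6 (x y : G K) : brk x y 6 =
  x 0 * y 3 - x 3 * y 0 + (x 1 * y 4 - x 4 * y 1) + (x 2 * y 5 - x 5 * y 2) := rfl
theorem brk7 (x y : G K) : brk x y 7 = x 1 * y 3 - x 3 * y 1 := rfl

/-- quadratic form. -/
def qf (x : G K) : K := x 6 * x 6 + x 0 * x 3 + x 1 * x 4 + x 2 * x 5

/-- the 3-map. -/
def fm (x : G K) : G K := fun k =>
  if k = 7 then x 1 * x 1 * x 2 + x 1 * x 3 * x 6 - x 3 * x 3 * x 5 else qf x * x k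

theorem fm7 (x : G K) : fm x 7 = x 1 * x 1 * x 2 + x 1 * x 3 * x 6 - x 3 * x 3 * x 5 := rfl
theorem fmk (x : G K) (k : Fin 8) (h : k ≠ 7) : fm x k = qf x * x k := by simp [fm, h]

theorem G.ext8 {x y : G K} (h0 : x 0 = y 0) (h1 : x 1 = y 1) (h2 : x 2 = y 2) (h3 : x 3 = y 3)
    (h4 : x 4 = y 4) (h5 : x 5 = y 5) (h6 : x 6 = y 6) (h7 : x 7 = y 7) : x = y := by
  apply G.ext'
  intro k
  fin_cases k <;> assumption

end G

section L
variable (K : Type u) [Field K] [CharP K 3]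

theorem three_zero : (3 : K) = 0 := by
  have := CharP.cast_eq_zero K 3
  simpa using this

variable {K}

theorem brk_jac (x y z : G K) : brk x (brk y z) = brk (brk x y) z + brk y (brk x z) := by
  have h3 := three_zero K
  apply G.ext8 <;> simp only [G.add_apply, brk0, brk1, brk2, brk3, brk4, brk5, brk6, brk7] <;> grind

instance : LieRing (G K) where
  bracket := brk
  add_lie := by
    intro x y z
    apply G.ext8 <;>
      simp only [Bracket.bracket, G.add_apply, brk0, brk1, brk2, brk3, brk4, brk5, brk6, brk7] <;>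
      ring
  lie_add := by
    intro x y z
    apply G.ext8 <;>
      simp only [Bracket.bracket, G.add_apply, brk0, brk1, brk2, brk3, brk4, brk5, brk6, brk7] <;>
      ring
  lie_self := by
    intro x
    apply G.ext8 <;>
      simp only [Bracket.bracket, G.zero_apply, brk0, brk1, brk2, brk3, brk4, brk5, brk6, brk7] <;>
      ring
  leibniz_lie := by
    intro x y z
    exact brk_jac x y z

theorem lie_def (x y : G K) : ⁅x, y⁆ = brk x y := rfl

instance : LieAlgebra K (G K) where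
  lie_smul := by
    intro t x y
    apply G.ext8 <;>
      simp only [lie_def, G.smul_apply, brk0, brk1, brk2, brk3, brk4, brk5, brk6, brk7] <;>
      ring

theorem fm_smul (a : K) (x : G K) : fm (a • x) = a ^ 3 • fm x := by
  apply G.ext8 <;> simp [fmk, fm7, qf] <;> ring

theorem fm_add (x y : G K) : fm (x + y) = fm x + fm y + (⁅x, ⁅x, y⁆⁆ + ⁅y, ⁅y, x⁆⁆) := by
  have h3 := three_zero K
  apply G.ext8 <;>
    simp only [lie_def, G.add_apply, brk0, brk1, brk2, brk3, brk4, brk5, brk6, brk7, fmk, fm7, qf,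
      ne_eq, Fin.reduceEq, not_false_eq_true]
    <;> grind

theorem fm_ad (x y : G K) : ⁅fm x, y⁆ = ⁅x, ⁅x, ⁅x, y⁆⁆⁆ := by
  have h3 := three_zero K
  apply G.ext8 <;>
    simp only [lie_def, brk0, brk1, brk2, brk3, brk4, brk5, brk6, brk7, fmk, fm7, qf,
      ne_eq, Fin.reduceEq, not_false_eq_true]
    <;> grind

end L

end Pool.Agent.Work.MP_52c914_al
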