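import Pool.Agent.Work.MP_52c914_al.Alg

set_option autoImplicit false

namespace Pool.Agent.Work.MP_52c914_al

universe u v

attribute [local instance 100] LieRing.ofAssociativeRing
attribute [local instance 100] LieAlgebra.ofAssociativeAlgebra

theorem cube_add {A : Type*} [Ring A] (h3 : (3 : A) = 0) (x y : A) :
    (x + y) ^ 3 = x ^ 3 + y ^ 3 + ((x * (x * y - y * x) - (x * y - y * x) * x)
      + (y * (y * x - x * y) - (y * x - x * y) * y)) := by
  have : (x + y) ^ 3 = x ^ 3 + y ^ 3 + ((x * (x * y - y * x) - (x * y - y * x) * x)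
      + (y * (y * x - x * y) - (y * x - x * y) * y)) + 3 * (x * y * x + y * x * y) := by
    noncomm_ring
  rw [this, h3, zero_mul, add_zero]

section R
variable {K : Type u} [Field K] [CharP K 3]

theorem three_zero' (A : Type*) [Ring A] [Algebra K A] : (3 : A) = 0 := by
  have h : algebraMap K A 3 = 0 := by rw [three_zero K, map_zero]
  rw [← h]; exact (map_ofNat (algebraMap K A) 3).symm

theorem isPMap_fm : IsPMap K 3 (fm : G K → G K) where
  smul := fm_smul
  ad := by
    intro x y
    rw [fm_ad]
    simp [pow_succ, LieAlgebra.ad_apply]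
  add := by
    intro x y
    rw [fm_add, cube_add (three_zero' (K := K) _)]
    simp only [map_add, LieHom.map_lie, LieRing.of_associative_ring_bracket]
    abel

/-- standard basis vectors -/
def ev (k : Fin 8) : G K := Pi.single k 1

@[simp] theorem ev_apply (k l : Fin 8) : (ev k : G K) l = if l = k then 1 else 0 := by
  simp [ev, Pi.single_apply]

theorem sum_apply {ι : Type*} (s : Finset ι) (g : ι → G K) (l : Fin 8) :
    (∑ i ∈ s, g i) l = ∑ i ∈ s, g i l := Finset.sum_apply l s g

theorem eq_sum (x : G K) : x = ∑ k, x k • (ev k : G K) := by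
  apply G.ext'
  intro l
  rw [sum_apply]
  simp

/-- the prime field inside `K`. -/
def cK (K : Type u) [Field K] [CharP K 3] : ZMod 3 →+* K := ZMod.castHom (dvd_refl 3) K

set_option maxHeartbeats 4000000 in
theorem lie_coord (x y : G K) (k : Fin 8) :
    ⁅x, y⁆ k = ∑ i, ∑ j, cK K (sc i j k) * (x i * y j) := by
  rw [lie_def]
  fin_cases k <;>
    simp [Fin.sum_univ_eight, sc, brk0, brk1, brk2, brk3, brk4, brk5, brk6, brk7] <;> ring

end R

end Pool.Agent.Work.MP_52c914_al
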