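import Pool.Agent.Work.MP_52c914_al.Simple

set_option autoImplicit false

namespace Pool.Agent.Work.MP_52c914_al

universe u v

open scoped TensorProduct

attribute [local instance 100] LieRing.ofAssociativeRing
attribute [local instance 100] LieAlgebra.ofAssociativeAlgebra

section R
variable {K : Type u} [Field K] [CharP K 3]

variable (K) in
/-- carrier of the tensor product module. -/
abbrev T := (I9 → K) ⊗[K] (G K)

/-- left factor action. -/
noncomputable def actL (x : G K) : Module.End K (T K) :=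
  Module.End.rTensorAlgHom K (I9 → K) (G K) (Matrix.toLinAlgEquiv' (rho K 0 x))

/-- right factor action. -/
noncomputable def actR (x : G K) : Module.End K (T K) :=
  Module.End.lTensorAlgHom K (G K) (I9 → K) (LieAlgebra.ad K (G K) x)

theorem actL_tmul (x : G K) (v : I9 → K) (w : G K) :
    actL x (v ⊗ₜ[K] w) = ((rho K 0 x).mulVec v) ⊗ₜ[K] w := by
  change (LinearMap.rTensor (G K) (Matrix.toLinAlgEquiv' (rho K 0 x))) (v ⊗ₜ[K] w) = _
  rw [LinearMap.rTensor_tmul, Matrix.toLinAlgEquiv'_apply]

theorem actR_tmul (x : G K) (v : I9 → K) (w : G K) :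
    actR x (v ⊗ₜ[K] w) = v ⊗ₜ[K] ⁅x, w⁆ := by
  change (LinearMap.lTensor (I9 → K) (LieAlgebra.ad K (G K) x)) (v ⊗ₜ[K] w) = _
  rw [LinearMap.lTensor_tmul, LieAlgebra.ad_apply]

theorem act_comm (x y : G K) : actL x * actR y = actR y * actL x := by
  apply TensorProduct.ext'
  intro v w
  rw [Module.End.mul_apply, Module.End.mul_apply, actR_tmul, actL_tmul, actL_tmul, actR_tmul]

theorem actL_add (x y : G K) : actL (x + y) = actL x + actL y := by simp [actL]
theorem actR_add (x y : G K) : actR (x + y) = actR x + actR y := by simp [actR]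
theorem actL_smul (a : K) (x : G K) : actL (a • x) = a • actL x := by simp [actL]
theorem actR_smul (a : K) (x : G K) : actR (a • x) = a • actR x := by simp [actR]

theorem actL_lie (x y : G K) : actL ⁅x, y⁆ = actL x * actL y - actL y * actL x := by
  simp only [actL, LieHom.map_lie, LieRing.of_associative_ring_bracket, map_sub, map_mul]

theorem actR_lie (x y : G K) : actR ⁅x, y⁆ = actR x * actR y - actR y * actR x := by
  simp only [actR, LieHom.map_lie, LieRing.of_associative_ring_bracket, map_sub, map_mul]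

theorem actL_cube (x : G K) : actL x ^ 3 = actL (fm x) + algebraMap K _ (chi K x ^ 3) := by
  simp only [actL]
  rw [← map_pow, ← map_pow, rho_rel, map_add, map_add, AlgEquiv.commutes, AlgHom.commutes]

theorem actR_cube (x : G K) : actR x ^ 3 = actR (fm x) := by
  simp only [actR]
  rw [← map_pow]
  congr 1
  apply LinearMap.ext
  intro y
  rw [LieAlgebra.ad_apply, isPMap_fm.ad]

variable (K) in
/-- the tensor product action. -/
noncomputable def tau : G K →ₗ⁅K⁆ Module.End K (T K) where
  toFun x := actL x + actR x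
  map_add' x y := by rw [actL_add, actR_add]; abel
  map_smul' a x := by rw [actL_smul, actR_smul, smul_add]; rfl
  map_lie' := by
    intro x y
    change actL ⁅x, y⁆ + actR ⁅x, y⁆ = _
    rw [LieRing.of_associative_ring_bracket, actL_lie, actR_lie]
    change _ = (actL x + actR x) * (actL y + actR y) - (actL y + actR y) * (actL x + actR x)
    have h1 := act_comm x y
    have h2 := act_comm y x
    rw [add_mul, mul_add, mul_add, add_mul, mul_add, mul_add, h1, h2]
    abel

theorem tau_apply (x : G K) : tau K x = actL x + actR x := rfl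

theorem cube_add_comm {A : Type*} [Ring A] (h3 : (3 : A) = 0) (x y : A) (h : x * y = y * x) :
    (x + y) ^ 3 = x ^ 3 + y ^ 3 := by
  rw [cube_add h3, h]
  simp

theorem tau_rel (x : G K) :
    tau K x ^ 3 = tau K (fm x) + algebraMap K _ (chi K x ^ 3) := by
  rw [tau_apply, tau_apply]
  refine (cube_add_comm (three_zero' (K := K) _) (actL x) (actR x) (act_comm x x)).trans ?_
  rw [actL_cube, actR_cube]
  abel

variable (K) in
/-- the algebra map to the endomorphisms of the tensor product. -/
noncomputable def psi : U K →ₐ[K] Module.End K (T K) := redLift (tau K) tau_rel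

theorem psi_can (x : G K) : psi K (can x) = tau K x := redLift_can _ _ x

variable (K) in
/-- the highest weight vector. -/
noncomputable def hw : T K := (Pi.single ((1 : Fin 3), (0 : Fin 3)) (1 : K) : I9 → K) ⊗ₜ[K] (ev 4 : G K)

/-- coordinate functional on `G K`. -/
def coord4 (K : Type u) [Field K] : G K →ₗ[K] K where
  toFun x := x 4
  map_add' _ _ := rfl
  map_smul' _ _ := rfl

theorem hw_ne : hw K ≠ 0 := by
  intro h
  have h2 := congrArg (fun t => TensorProduct.lid K K (TensorProduct.map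
    (LinearMap.proj ((1 : Fin 3), (0 : Fin 3)) : (I9 → K) →ₗ[K] K) (coord4 K) t)) h
  simp only [hw, TensorProduct.map_tmul, map_zero, TensorProduct.lid_tmul] at h2
  simp [coord4] at h2

theorem mE_col (b : ZMod 3) (k : Fin 8) (c : I9) (r : I9) :
    ((mE K b k).mulVec (Pi.single c (1 : K))) r = cK K (E b k r c) := by
  rw [Matrix.mulVec_single_one]
  rfl

theorem hw0 : tau K (ev 0) (hw K) = 0 := by
  rw [tau_apply, LinearMap.add_apply, hw, actL_tmul, actR_tmul, rho_ev]
  have h1 : (mE K 0 0).mulVec (Pi.single ((1 : Fin 3), (0 : Fin 3)) (1 : K)) = 0 := by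
    funext r
    rw [mE_col, show E 0 0 r ((1 : Fin 3), (0 : Fin 3)) = 0 by revert r; decide]
    simp
  have h2 : ⁅(ev 0 : G K), (ev 4 : G K)⁆ = 0 := by
    apply G.ext8 <;>
      simp [lie_def, brk0, brk1, brk2, brk3, brk4, brk5, brk6, brk7, ev_apply]
  rw [h1, h2]
  simp

theorem hw2 : tau K (ev 2) (hw K) = 0 := by
  rw [tau_apply, LinearMap.add_apply, hw, actL_tmul, actR_tmul, rho_ev]
  have h1 : (mE K 0 2).mulVec (Pi.single ((1 : Fin 3), (0 : Fin 3)) (1 : K)) = 0 := by
    funext r
    rw [mE_col, show E 0 2 r ((1 : Fin 3), (0 : Fin 3)) = 0 by revert r; decide]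
    simp
  have h2 : ⁅(ev 2 : G K), (ev 4 : G K)⁆ = 0 := by
    apply G.ext8 <;>
      simp [lie_def, brk0, brk1, brk2, brk3, brk4, brk5, brk6, brk7, ev_apply]
  rw [h1, h2]
  simp

theorem hw6 : tau K (ev 6) (hw K) + hw K = 0 := by
  rw [tau_apply, LinearMap.add_apply, hw, actL_tmul, actR_tmul, rho_ev]
  have h1 : (mE K 0 6).mulVec (Pi.single ((1 : Fin 3), (0 : Fin 3)) (1 : K))
      = Pi.single ((1 : Fin 3), (0 : Fin 3)) (1 : K) := by
    funext r
    rw [mE_col, show E 0 6 r ((1 : Fin 3), (0 : Fin 3)) = if r = (1, 0) then 1 else 0 by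
      revert r; decide]
    rw [Pi.single_apply]
    split_ifs <;> simp
  have h2 : ⁅(ev 6 : G K), (ev 4 : G K)⁆ = ev 4 := by
    apply G.ext8 <;>
      simp [lie_def, brk0, brk1, brk2, brk3, brk4, brk5, brk6, brk7, ev_apply]
  rw [h1, h2]
  rw [← hw, ← two_nsmul, ← succ_nsmul]
  have : (2 + 1 : ℕ) • hw K = (3 : K) • hw K := by
    rw [← Nat.cast_smul_eq_nsmul K]
    norm_num
  rw [this, three_zero K, zero_smul]

/-- a module for the reduced enveloping algebra on the tensor product. -/
def annIdeal (K : Type u) [Field K] [CharP K 3] : Ideal (U K) where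
  carrier := {u | psi K u (hw K) = 0}
  add_mem' := by
    intro a b ha hb
    change psi K (a + b) (hw K) = 0
    rw [map_add, LinearMap.add_apply, ha, hb, add_zero]
  zero_mem' := by
    change psi K 0 (hw K) = 0
    rw [map_zero, LinearMap.zero_apply]
  smul_mem' := by
    intro a b hb
    change psi K (a * b) (hw K) = 0
    rw [map_mul, Module.End.mul_apply, hb, map_zero]

theorem mem_annIdeal (u : U K) : u ∈ annIdeal K ↔ psi K u (hw K) = 0 := Iff.rfl

theorem annIdeal_ne_top : annIdeal K ≠ ⊤ := by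
  intro h
  have h1 : (1 : U K) ∈ annIdeal K := by rw [h]; exact Submodule.mem_top
  rw [mem_annIdeal, map_one, Module.End.one_apply] at h1
  exact hw_ne h1

theorem can_mem (k : Fin 8) (h : tau K (ev k) (hw K) = 0) : can (ev k) ∈ annIdeal K := by
  rw [mem_annIdeal, psi_can, h]

theorem can6_mem : can (ev 6) + 1 ∈ annIdeal K := by
  rw [mem_annIdeal, map_add, map_one, LinearMap.add_apply, Module.End.one_apply, psi_can, hw6]

/-- a simple module of a fourth kind. -/
theorem exists_fourth : ∃ m : Ideal (U K), IsSimpleModule (U K) (U K ⧸ m) ∧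
    ∃ v : U K ⧸ m, v ≠ 0 ∧ (can (ev 0) : U K) • v = 0 ∧ (can (ev 2) : U K) • v = 0 ∧
      (can (ev 6) + 1 : U K) • v = 0 := by
  obtain ⟨m, hm, hle⟩ := Ideal.exists_le_maximal (annIdeal K) annIdeal_ne_top
  refine ⟨m, isSimpleModule_iff_isCoatom.mpr hm.1, Submodule.Quotient.mk 1, ?_, ?_, ?_, ?_⟩
  · intro h
    rw [Submodule.Quotient.mk_eq_zero] at h
    exact hm.ne_top ((Ideal.eq_top_iff_one m).mpr h)
  · rw [← Submodule.Quotient.mk_smul, smul_eq_mul, mul_one, Submodule.Quotient.mk_eq_zero]
    exact hle (can_mem 0 hw0)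
  · rw [← Submodule.Quotient.mk_smul, smul_eq_mul, mul_one, Submodule.Quotient.mk_eq_zero]
    exact hle (can_mem 2 hw2)
  · rw [← Submodule.Quotient.mk_smul, smul_eq_mul, mul_one, Submodule.Quotient.mk_eq_zero]
    exact hle can6_mem

theorem cert_use (C1 M1 C2 M2 C3 M3 : Matrix I9 I9 K) (h : C1 * M1 + C2 * M2 + C3 * M3 = 1)
    (v : I9 → K) (h1 : M1.mulVec v = 0) (h2 : M2.mulVec v = 0) (h3 : M3.mulVec v = 0) : v = 0 := by
  have h' := congrArg (fun M : Matrix I9 I9 K => M.mulVec v) h
  simp only [Matrix.add_mulVec, ← Matrix.mulVec_mulVec, Matrix.one_mulVec, h1, h2, h3,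
    Matrix.mulVec_zero, add_zero] at h'
  exact h'.symm

theorem V.no_fourth (b : ZMod 3) (v : V K b) (h0 : (can (ev 0) : U K) • v = 0)
    (h2 : (can (ev 2) : U K) • v = 0) (h6 : (can (ev 6) + 1 : U K) • v = 0) : v = 0 := by
  rw [V.smul_def, phi_can, rho_ev] at h0 h2
  rw [V.smul_def, map_add, map_one, phi_can, rho_ev] at h6
  have h := congrArg (cK K).mapMatrix (cert_four b)
  rw [map_add, map_add, map_mul, map_mul _ (E b 5) (E b 2), map_mul _ (1 + _) (E b 6 + 1),
    map_add _ (E b 6) 1, map_one] at h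
  exact cert_use _ _ _ _ _ _ h v h0 h2 h6

/-- the vector `1` of `V b`. -/
def vac (K : Type u) [Field K] (b : ZMod 3) : V K b := (Pi.single ((0 : Fin 3), (0 : Fin 3)) (1 : K) : I9 → K)

theorem vac_ne (b : ZMod 3) : vac K b ≠ 0 := by
  intro h
  have h1 : vac K b ((0 : Fin 3), (0 : Fin 3)) = (0 : K) := congrFun h ((0 : Fin 3), (0 : Fin 3))
  simp [vac] at h1

theorem mE_vac (b : ZMod 3) (k : Fin 8) (r : I9) :
    ((mE K b k).mulVec (vac K b)) r = cK K (E b k r (0, 0)) := mE_col b k (0, 0) r

theorem vac0 (b : ZMod 3) : (can (ev 0) : U K) • vac K b = 0 := by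
  rw [V.smul_def, phi_can, rho_ev]
  funext r
  rw [mE_vac, show E b 0 r ((0 : Fin 3), (0 : Fin 3)) = 0 by revert b r; decide]
  exact map_zero _

theorem vac6 (b : ZMod 3) : (can (ev 6) : U K) • vac K b = 0 := by
  rw [V.smul_def, phi_can, rho_ev]
  funext r
  rw [mE_vac, show E b 6 r ((0 : Fin 3), (0 : Fin 3)) = 0 by revert b r; decide]
  exact map_zero _

theorem vac3 (b : ZMod 3) : (can (ev 3) - algebraMap K _ (cK K b) * can (ev 5) : U K) • vac K b = 0 := by
  rw [V.smul_def, map_sub, map_mul, AlgHom.commutes, phi_can, phi_can, rho_ev, rho_ev,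
    Matrix.sub_mulVec, ← Algebra.smul_def, Matrix.smul_mulVec]
  funext r
  rw [Pi.sub_apply, Pi.smul_apply, mE_vac, mE_vac,
    show E b 3 r ((0 : Fin 3), (0 : Fin 3)) = b * E b 5 r (0, 0) by revert b r; decide, map_mul,
    smul_eq_mul, sub_self]
  rfl

theorem V.no_vac (b c : ZMod 3) (hbc : b ≠ c) (v : V K c) (h0 : (can (ev 0) : U K) • v = 0)
    (h6 : (can (ev 6) : U K) • v = 0)
    (h3 : (can (ev 3) - algebraMap K _ (cK K b) * can (ev 5) : U K) • v = 0) : v = 0 := by
  rw [V.smul_def, phi_can, rho_ev] at h0 h6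
  rw [V.smul_def, map_sub, map_mul, AlgHom.commutes, phi_can, phi_can, rho_ev, rho_ev,
    ← Algebra.smul_def] at h3
  have h := congrArg (cK K).mapMatrix (cert_ne b c hbc)
  rw [map_add, map_add, map_mul _ _ (E c 0), map_mul _ _ (E c 6), map_mul _ _ (E c 3 - b • E c 5),
    map_sub _ (E c 3) (b • E c 5), map_smul_mat b (E c 5), map_one] at h
  exact cert_use _ _ _ _ _ _ h v h0 h6 h3

theorem V.not_iso (b c : ZMod 3) (hbc : b ≠ c) : IsEmpty (V K b ≃ₗ[U K] V K c) := by
  constructor
  intro e
  apply vac_ne (K := K) b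
  apply e.injective
  rw [map_zero]
  apply V.no_vac b c hbc
  · rw [← map_smul, vac0, map_zero]
  · rw [← map_smul, vac6, map_zero]
  · rw [← map_smul, vac3, map_zero]

theorem main [IsAlgClosed K] :
    Module.finrank K (G K) = 8 ∧ IsPMap K 3 (fm : G K → G K) ∧
      ∃ M : Fin 4 → ModuleCat.{u} (RedEnv K 3 (fm : G K → G K) (chi K)),
        (∀ i, IsSimpleModule (RedEnv K 3 (fm : G K → G K) (chi K)) (M i)) ∧
        ∀ i j, i ≠ j → IsEmpty (M i ≃ₗ[RedEnv K 3 (fm : G K → G K) (chi K)] M j) := by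
  refine ⟨?_, isPMap_fm, ?_⟩
  · change Module.finrank K (Fin 8 → K) = 8
    simp
  obtain ⟨m, hm, w, hw0, hwa, hwb, hwc⟩ := exists_fourth (K := K)
  have h4 : ∀ b : ZMod 3, IsEmpty ((U K ⧸ m) ≃ₗ[U K] V K b) := by
    intro b
    constructor
    intro e
    apply hw0
    apply e.injective
    rw [map_zero]
    apply V.no_fourth b
    · rw [← map_smul, hwa, map_zero]
    · rw [← map_smul, hwb, map_zero]
    · rw [← map_smul, hwc, map_zero]
  have h4' : ∀ b : ZMod 3, IsEmpty (V K b ≃ₗ[U K] (U K ⧸ m)) := fun b =>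
    ⟨fun e => (h4 b).false e.symm⟩
  refine ⟨![ModuleCat.of (U K) (V K 0), ModuleCat.of (U K) (V K 1), ModuleCat.of (U K) (V K 2),
    ModuleCat.of (U K) (U K ⧸ m)], ?_, ?_⟩
  · intro i
    fin_cases i
    · exact V.isSimple 0
    · exact V.isSimple 1
    · exact V.isSimple 2
    · exact hm
  · intro i j hij
    fin_cases i <;> fin_cases j
    · exact absurd rfl hij
    · exact V.not_iso 0 1 (by decide)
    · exact V.not_iso 0 2 (by decide)
    · exact h4' 0
    · exact V.not_iso 1 0 (by decide)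
    · exact absurd rfl hij
    · exact V.not_iso 1 2 (by decide)
    · exact h4' 1
    · exact V.not_iso 2 0 (by decide)
    · exact V.not_iso 2 1 (by decide)
    · exact absurd rfl hij
    · exact h4' 2
    · exact h4 0
    · exact h4 1
    · exact h4 2
    · exact absurd rfl hij

end R

end Pool.Agent.Work.MP_52c914_al
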