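import Pool.Agent.Work.MP_52c914_al.Coord

set_option autoImplicit false

namespace Pool.Agent.Work.MP_52c914_al

universe u v

attribute [local instance 100] LieRing.ofAssociativeRing
attribute [local instance 100] LieAlgebra.ofAssociativeAlgebra

section R
variable {K : Type u} [Field K] [CharP K 3]

/-- the matrices over `K`. -/
def mE (K : Type u) [Field K] [CharP K 3] (b : ZMod 3) (k : Fin 8) : Matrix I9 I9 K :=
  (cK K).mapMatrix (E b k)

theorem map_smul_mat (c : ZMod 3) (M : Matrix I9 I9 (ZMod 3)) :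
    (cK K).mapMatrix (c • M) = cK K c • (cK K).mapMatrix M := by
  ext i j
  simp

theorem mE_comm (b : ZMod 3) (i j : Fin 8) :
    mE K b i * mE K b j - mE K b j * mE K b i = ∑ k, cK K (sc i j k) • mE K b k := by
  have h := congrArg (cK K).mapMatrix (E_comm b i j)
  rw [map_sub, map_mul, map_mul, map_sum] at h
  simp only [map_smul_mat] at h
  exact h

/-- the representation by matrices, as a linear map. -/
def rhoL (K : Type u) [Field K] [CharP K 3] (b : ZMod 3) : G K →ₗ[K] Matrix I9 I9 K where
  toFun x := ∑ k, x k • mE K b k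
  map_add' x y := by simp [add_smul, Finset.sum_add_distrib]
  map_smul' a x := by simp [mul_smul, Finset.smul_sum]

theorem rhoL_apply (b : ZMod 3) (x : G K) : rhoL K b x = ∑ k, x k • mE K b k := rfl

theorem rhoL_lie (b : ZMod 3) (x y : G K) :
    rhoL K b ⁅x, y⁆ = rhoL K b x * rhoL K b y - rhoL K b y * rhoL K b x := by
  have e1 : rhoL K b x * rhoL K b y - rhoL K b y * rhoL K b x
      = ∑ i, ∑ j, (x i * y j) • (mE K b i * mE K b j - mE K b j * mE K b i) := by
    rw [rhoL_apply, rhoL_apply, Finset.sum_mul_sum, Finset.sum_mul_sum]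
    rw [Finset.sum_comm (s := Finset.univ) (t := Finset.univ)
      (f := fun i j => (y i • mE K b i) * (x j • mE K b j))]
    rw [← Finset.sum_sub_distrib]
    refine Finset.sum_congr rfl fun i _ => ?_
    rw [← Finset.sum_sub_distrib]
    refine Finset.sum_congr rfl fun j _ => ?_
    rw [smul_mul_smul_comm, smul_mul_smul_comm, smul_sub, mul_comm (y j)]
  rw [e1, rhoL_apply]
  simp only [mE_comm, lie_coord]
  simp only [Finset.smul_sum, Finset.sum_smul]
  rw [Finset.sum_comm]
  refine Finset.sum_congr rfl fun i _ => ?_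
  rw [Finset.sum_comm]
  refine Finset.sum_congr rfl fun j _ => ?_
  refine Finset.sum_congr rfl fun k _ => ?_
  rw [smul_smul, mul_comm]

/-- the representation by matrices, as a Lie homomorphism. -/
def rho (K : Type u) [Field K] [CharP K 3] (b : ZMod 3) : G K →ₗ⁅K⁆ Matrix I9 I9 K :=
  { rhoL K b with
    map_lie' := by
      intro x y
      exact rhoL_lie b x y }

theorem rho_apply (b : ZMod 3) (x : G K) : rho K b x = ∑ k, x k • mE K b k := rfl

@[simp] theorem rho_ev (b : ZMod 3) (k : Fin 8) : rho K b (ev k) = mE K b k := by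
  rw [rho_apply]
  simp

/-- the character. -/
def chi (K : Type u) [Field K] : G K →ₗ[K] K where
  toFun x := x 5 + x 7
  map_add' x y := by simp; ring
  map_smul' a x := by simp; ring

theorem chi_apply (x : G K) : chi K x = x 5 + x 7 := rfl

/-- the cube relation needs to be checked on basis vectors only. -/
theorem cube_rel {A : Type*} [Ring A] [Algebra K A] (τ : G K →ₗ⁅K⁆ A) (χ : G K →ₗ[K] K)
    (h : ∀ k, τ (ev k) ^ 3 = τ (fm (ev k)) + algebraMap K A (χ (ev k) ^ 3)) (x : G K) :
    τ x ^ 3 = τ (fm x) + algebraMap K A (χ x ^ 3) := by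
  have hadd : ∀ x y : G K, τ x ^ 3 = τ (fm x) + algebraMap K A (χ x ^ 3) →
      τ y ^ 3 = τ (fm y) + algebraMap K A (χ y ^ 3) →
      τ (x + y) ^ 3 = τ (fm (x + y)) + algebraMap K A (χ (x + y) ^ 3) := by
    intro x y hx hy
    rw [fm_add, map_add τ x y, cube_add (three_zero' (K := K) A), hx, hy]
    simp only [map_add, LieHom.map_lie, LieRing.of_associative_ring_bracket]
    have : (χ x + χ y) ^ 3 = χ x ^ 3 + χ y ^ 3 := by
      linear_combination (χ x ^ 2 * χ y + χ x * χ y ^ 2) * three_zero K
    rw [this, map_add]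
    abel
  have hsmul : ∀ (a : K) (x : G K), τ x ^ 3 = τ (fm x) + algebraMap K A (χ x ^ 3) →
      τ (a • x) ^ 3 = τ (fm (a • x)) + algebraMap K A (χ (a • x) ^ 3) := by
    intro a x hx
    rw [fm_smul, map_smul, map_smul, map_smul, smul_pow, hx, smul_add, smul_eq_mul, mul_pow,
      Algebra.smul_def (a ^ 3) (algebraMap K A _), ← map_mul]
  have hzero : τ (0 : G K) ^ 3 = τ (fm 0) + algebraMap K A (χ 0 ^ 3) := by
    have : (fm (0 : G K)) = 0 := by
      have := fm_smul (0 : K) (0 : G K)
      simpa using this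
    rw [this]; simp
  rw [eq_sum x]
  generalize hs : (Finset.univ : Finset (Fin 8)) = s
  clear hs
  induction s using Finset.induction_on with
  | empty => simpa using hzero
  | insert k s hk ih =>
    rw [Finset.sum_insert hk]
    exact hadd _ _ (hsmul _ _ (h k)) ih

end R

end Pool.Agent.Work.MP_52c914_al
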