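import Pool.Agent.Work.MP_52c914_al.Reps

set_option autoImplicit false

namespace Pool.Agent.Work.MP_52c914_al

universe u v

attribute [local instance 100] LieRing.ofAssociativeRing
attribute [local instance 100] LieAlgebra.ofAssociativeAlgebra

section R
variable {K : Type u} [Field K] [CharP K 3]

theorem mE_cube (b : ZMod 3) (k : Fin 8) :
    mE K b k ^ 3 = (if k = 6 then mE K b 6 else 0) + algebraMap K _ (cK K (ch k)) := by
  have h := congrArg (cK K).mapMatrix (E_cube b k)
  rw [map_mul, map_mul, map_add, map_smul_mat, map_one] at h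
  rw [pow_succ, pow_succ, pow_one, mul_assoc, Algebra.algebraMap_eq_smul_one]
  refine h.trans ?_
  congr 1
  split_ifs
  · rfl
  · simp

theorem fm_ev (k : Fin 8) : fm (ev k : G K) = if k = 6 then ev 6 else 0 := by
  apply G.ext'
  intro l
  fin_cases k <;> fin_cases l <;> simp [fm, qf, ev_apply]

theorem chi_ev (k : Fin 8) : chi K (ev k : G K) ^ 3 = cK K (ch k) := by
  fin_cases k <;> simp [chi_apply, ev_apply, ch]

theorem rho_rel (b : ZMod 3) (x : G K) :
    rho K b x ^ 3 = rho K b (fm x) + algebraMap K _ (chi K x ^ 3) := by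
  apply cube_rel
  intro k
  rw [rho_ev, mE_cube, chi_ev, fm_ev]
  congr 1
  split_ifs
  · rw [rho_ev]
  · rw [map_zero]

variable (K) in
/-- the reduced enveloping algebra of the example. -/
abbrev U := RedEnv K 3 (fm : G K → G K) (chi K)

/-- canonical map. -/
noncomputable def can (x : G K) : U K :=
  RingQuot.mkAlgHom K (redRel K 3 (fm : G K → G K) (chi K)) (UniversalEnvelopingAlgebra.ι K x)

/-- universal property. -/
noncomputable def redLift {A : Type*} [Ring A] [Algebra K A] (τ : G K →ₗ⁅K⁆ A)
    (h : ∀ x, τ x ^ 3 = τ (fm x) + algebraMap K A (chi K x ^ 3)) : U K →ₐ[K] A :=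
  RingQuot.liftAlgHom K ⟨UniversalEnvelopingAlgebra.lift K τ, by
    rintro a b ⟨x, rfl, rfl⟩
    rw [map_pow, map_add, UniversalEnvelopingAlgebra.lift_ι_apply,
      UniversalEnvelopingAlgebra.lift_ι_apply, h x, AlgHom.commutes]⟩

theorem redLift_can {A : Type*} [Ring A] [Algebra K A] (τ : G K →ₗ⁅K⁆ A)
    (h : ∀ x, τ x ^ 3 = τ (fm x) + algebraMap K A (chi K x ^ 3)) (x : G K) :
    redLift τ h (can x) = τ x := by
  unfold redLift can
  rw [RingQuot.liftAlgHom_mkAlgHom_apply, UniversalEnvelopingAlgebra.lift_ι_apply]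

/-- the algebra map to matrices. -/
noncomputable def phi (b : ZMod 3) : U K →ₐ[K] Matrix I9 I9 K := redLift (rho K b) (rho_rel b)

theorem phi_can (b : ZMod 3) (x : G K) : phi b (can x) = rho K b x := redLift_can _ _ x

theorem mE_mem (b : ZMod 3) (k : Fin 8) : mE K b k ∈ (phi (K := K) b).range :=
  ⟨can (ev k), by rw [← rho_ev (K := K)]; exact phi_can b (ev k)⟩

theorem single_mem (b : ZMod 3) (r c : I9) :
    Matrix.single r c (1 : K) ∈ (phi (K := K) b).range := by
  set S := (phi (K := K) b).range
  have hE := mE_mem (K := K) b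
  have hQ : (cK K).mapMatrix (mQ b) ∈ S := by
    unfold mQ
    rw [map_mul, map_mul]
    exact S.mul_mem (hE 5) (S.mul_mem (hE 5) (hE 0))
  have hR : (cK K).mapMatrix (mR b) ∈ S := by
    unfold mR
    simp only [map_mul, map_sub, map_add, map_one]
    have h1 := S.mul_mem (hE 1) hQ
    have h2 := S.add_mem (hE 6) h1
    exact S.mul_mem (S.sub_mem S.one_mem (S.mul_mem h2 h2)) (S.sub_mem S.one_mem (S.mul_mem h1 h1))
  have hc : Matrix.single r (0, 0) (1 : K) ∈ S := by
    have h := congrArg (cK K).mapMatrix (col_units b r)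
    rw [map_mul, map_mul, map_pow, map_pow] at h
    have e : (cK K).mapMatrix (Matrix.single r (0, 0) 1) = Matrix.single r (0, 0) (1 : K) := by
      ext i j
      simp [Matrix.single_apply, apply_ite (cK K)]
    rw [e] at h
    rw [← h]
    exact S.mul_mem (S.pow_mem (hE 5) _) (S.mul_mem (S.pow_mem (hE 1) _) hR)
  have hr : Matrix.single (0, 0) c (1 : K) ∈ S := by
    have h := congrArg (cK K).mapMatrix (row_units b c)
    rw [map_mul, map_mul, map_pow, map_pow, map_smul_mat] at h
    have e : (cK K).mapMatrix (Matrix.single (0, 0) c 1) = Matrix.single (0, 0) c (1 : K) := by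
      ext i j
      simp [Matrix.single_apply, apply_ite (cK K)]
    rw [e] at h
    have hmem := S.mul_mem hR (S.mul_mem (S.pow_mem hQ c.2.val) (S.pow_mem (hE 5) (3 - c.1.val)))
    have e5 : (cK K).mapMatrix (E b 5) = mE K b 5 := rfl
    rw [e5] at h
    rw [h] at hmem
    have h2 := S.smul_mem hmem (cK K (if c.2 = 2 then (-1 : ZMod 3) else 1))
    rw [smul_smul, ← map_mul] at h2
    have : (if c.2 = 2 then (-1 : ZMod 3) else 1) * (if c.2 = 2 then (-1 : ZMod 3) else 1) = 1 := by
      split_ifs <;> decide
    rw [this, map_one, one_smul] at h2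
    exact h2
  have := S.mul_mem hc hr
  rwa [Matrix.single_mul_single_same, one_mul] at this

theorem phi_surj (b : ZMod 3) : Function.Surjective (phi (K := K) b) := by
  rw [← AlgHom.range_eq_top]
  rw [eq_top_iff]
  intro A _
  rw [Matrix.matrix_eq_sum_single A]
  refine Subalgebra.sum_mem _ fun i _ => Subalgebra.sum_mem _ fun j _ => ?_
  have : Matrix.single i j (A i j) = A i j • Matrix.single i j (1 : K) := by
    rw [Matrix.smul_single, smul_eq_mul, mul_one]
  rw [this]
  exact Subalgebra.smul_mem _ (single_mem b i j) _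

/-- the nine-dimensional module with parameter `b`. -/
def V (K : Type u) (_b : ZMod 3) : Type u := I9 → K

instance (b : ZMod 3) : AddCommGroup (V K b) := inferInstanceAs (AddCommGroup (I9 → K))
instance (b : ZMod 3) : Module K (V K b) := inferInstanceAs (Module K (I9 → K))
instance (b : ZMod 3) : Nontrivial (V K b) := inferInstanceAs (Nontrivial (I9 → K))

noncomputable instance (b : ZMod 3) : Module (U K) (V K b) where
  smul u v := (phi b u).mulVec v
  one_smul v := by
    change (phi b 1).mulVec v = v
    rw [map_one, Matrix.one_mulVec]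
  mul_smul a c v := by
    change (phi b (a * c)).mulVec v = (phi b a).mulVec ((phi b c).mulVec v)
    rw [map_mul, Matrix.mulVec_mulVec]
  smul_zero a := by
    change (phi b a).mulVec 0 = 0
    rw [Matrix.mulVec_zero]
  smul_add a v w := by
    change (phi b a).mulVec (v + w) = (phi b a).mulVec v + (phi b a).mulVec w
    exact Matrix.mulVec_add _ _ _
  add_smul a c v := by
    change (phi b (a + c)).mulVec v = (phi b a).mulVec v + (phi b c).mulVec v
    rw [map_add, Matrix.add_mulVec]
  zero_smul v := by
    change (phi b 0).mulVec v = 0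
    rw [map_zero, Matrix.zero_mulVec]

theorem V.smul_def (b : ZMod 3) (u : U K) (v : V K b) :
    u • v = ((phi b u).mulVec v : I9 → K) := rfl

theorem V.isSimple (b : ZMod 3) : IsSimpleModule (U K) (V K b) := by
  rw [isSimpleModule_iff_toSpanSingleton_surjective]
  refine ⟨inferInstance, fun v hv w => ?_⟩
  obtain ⟨r, hr⟩ : ∃ r, (v : I9 → K) r ≠ 0 := by
    by_contra hcon
    push Not at hcon
    exact hv (funext hcon)
  obtain ⟨u, hu⟩ := phi_surj (K := K) b (Matrix.of fun s t => if t = r then (w : I9 → K) s / (v : I9 → K) r else 0)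
  refine ⟨u, ?_⟩
  rw [LinearMap.toSpanSingleton_apply, V.smul_def, hu]
  funext s
  simp only [Matrix.mulVec, dotProduct, Matrix.of_apply, ite_mul, zero_mul,
    Finset.sum_ite_eq', Finset.mem_univ, if_true]
  exact div_mul_cancel₀ _ hr

end R

end Pool.Agent.Work.MP_52c914_al
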