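import Mathlib

set_option autoImplicit false

namespace Pool.Agent.Work.MP_52c914_al

/-- structure constants: coefficient of basis vector `k` in the bracket of basis vectors `i`, `j`.
Order of the basis: e12, e23, e31, e21, e32, e13, h, z. -/
def sc (i j k : Fin 8) : ZMod 3 :=
  match i.val, j.val, k.val with
  | 0, 1, 5 => 1
  | 1, 0, 5 => -1
  | 1, 2, 3 => 1
  | 2, 1, 3 => -1
  | 2, 0, 4 => 1
  | 0, 2, 4 => -1
  | 3, 4, 2 => -1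
  | 4, 3, 2 => 1
  | 4, 5, 0 => -1
  | 5, 4, 0 => 1
  | 5, 3, 1 => -1
  | 3, 5, 1 => 1
  | 0, 3, 6 => 1
  | 3, 0, 6 => -1
  | 1, 4, 6 => 1
  | 4, 1, 6 => -1
  | 2, 5, 6 => 1
  | 5, 2, 6 => -1
  | 6, 0, 0 => -1
  | 0, 6, 0 => 1
  | 6, 1, 1 => -1
  | 1, 6, 1 => 1
  | 6, 2, 2 => -1
  | 2, 6, 2 => 1
  | 6, 3, 3 => 1
  | 3, 6, 3 => -1
  | 6, 4, 4 => 1
  | 4, 6, 4 => -1
  | 6, 5, 5 => 1
  | 5, 6, 5 => -1
  | 1, 3, 7 => 1
  | 3, 1, 7 => -1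
  | _, _, _ => 0

abbrev I9 := Fin 3 × Fin 3

/-- matrix of the operator attached to basis vector `k`; the column `(i,j)` is the image of the
monomial `x^i y^j` in `K[x,y]/(x^3-1,y^3)`. -/
def E (b : ZMod 3) (k : Fin 8) : Matrix I9 I9 (ZMod 3) := fun r c =>
  match k.val with
  | 0 => if r.1 = c.1 + 1 ∧ r.2 + 1 = c.2 then ((c.2.val : ℕ) : ZMod 3) else 0
  | 1 => if r.1 = c.1 ∧ r.2 = c.2 + 1 ∧ c.2 ≠ 2 then 1 else 0
  | 2 => (if r.1 + 1 = c.1 ∧ r.2 = c.2 then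
            -(((c.1.val : ℕ) : ZMod 3) * (((c.1.val : ℕ) : ZMod 3) - 1))
              - ((c.1.val : ℕ) : ZMod 3) * ((c.2.val : ℕ) : ZMod 3) else 0)
          + (if r.1 = c.1 ∧ r.2 + 2 = c.2 then
            -(((c.2.val : ℕ) : ZMod 3) * (((c.2.val : ℕ) : ZMod 3) - 1)) else 0)
          + (if r.1 = c.1 + 1 ∧ r.2 + 1 = c.2 then -(b * ((c.2.val : ℕ) : ZMod 3)) else 0)
  | 3 => (if r.1 + 1 = c.1 ∧ r.2 = c.2 + 1 ∧ c.2 ≠ 2 then ((c.1.val : ℕ) : ZMod 3) else 0)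
          + (if r.1 = c.1 ∧ r.2 + 1 = c.2 then -((c.2.val : ℕ) : ZMod 3) else 0)
          + (if r.1 = c.1 + 1 ∧ r.2 = c.2 then b else 0)
  | 4 => if r.1 = c.1 ∧ r.2 + 1 = c.2 then
            -(((c.2.val : ℕ) : ZMod 3) * (((c.1.val : ℕ) : ZMod 3) + ((c.2.val : ℕ) : ZMod 3) - 1))
          else 0
  | 5 => if r.1 = c.1 + 1 ∧ r.2 = c.2 then 1 else 0
  | 6 => if r = c then ((c.1.val : ℕ) : ZMod 3) - ((c.2.val : ℕ) : ZMod 3) else 0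
  | _ => if r = c then 1 else 0

set_option maxRecDepth 100000 in
theorem E_comm : ∀ (b : ZMod 3) (i j : Fin 8),
    E b i * E b j - E b j * E b i = ∑ k, sc i j k • E b k := by
  decide +kernel

end Pool.Agent.Work.MP_52c914_al
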