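import Pool.Agent.Work.MP_52c914_al.Tables

set_option autoImplicit false

namespace Pool.Agent.Work.MP_52c914_al

/-- value of the character (cubed) on basis vectors. -/
def ch (k : Fin 8) : ZMod 3 := if k = 5 ∨ k = 7 then 1 else 0

set_option maxRecDepth 100000 in
theorem E_cube : ∀ (b : ZMod 3) (k : Fin 8),
    E b k * (E b k * E b k) = (if k = 6 then E b 6 else 0) + ch k • (1 : Matrix I9 I9 (ZMod 3)) := by
  decide +kernel

/-- the operator `d/dy = x^2 e12`. -/
def mQ (b : ZMod 3) : Matrix I9 I9 (ZMod 3) := E b 5 * (E b 5 * E b 0)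

/-- the projection onto the line of constants. -/
def mR (b : ZMod 3) : Matrix I9 I9 (ZMod 3) :=
  (1 - (E b 6 + E b 1 * mQ b) * (E b 6 + E b 1 * mQ b)) * (1 - (E b 1 * mQ b) * (E b 1 * mQ b))

set_option maxRecDepth 100000 in
theorem mQ_eq : ∀ b : ZMod 3, mQ b = fun r c =>
    if r.1 = c.1 ∧ r.2 + 1 = c.2 then ((c.2.val : ℕ) : ZMod 3) else 0 := by
  decide +kernel

set_option maxRecDepth 100000 in
theorem mR_eq : ∀ b : ZMod 3, mR b = fun r c => if r = (0, 0) ∧ c = (0, 0) then 1 else 0 := by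
  intro b
  unfold mR
  rw [mQ_eq]
  revert b
  decide +kernel

end Pool.Agent.Work.MP_52c914_al
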