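import Pool.Agent.Work.MP_52c914_al.Tables2

set_option autoImplicit false

namespace Pool.Agent.Work.MP_52c914_al

set_option maxRecDepth 100000 in
theorem col_units : ∀ (b : ZMod 3) (r : I9),
    E b 5 ^ r.1.val * (E b 1 ^ r.2.val * mR b) = Matrix.single r (0, 0) 1 := by
  intro b r
  rw [mR_eq]
  revert b r
  decide +kernel

set_option maxRecDepth 100000 in
theorem row_units : ∀ (b : ZMod 3) (c : I9),
    mR b * (mQ b ^ c.2.val * E b 5 ^ (3 - c.1.val))
      = (if c.2 = 2 then (-1 : ZMod 3) else 1) • Matrix.single (0, 0) c 1 := by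
  intro b c
  rw [mR_eq, mQ_eq]
  revert b c
  decide +kernel

set_option maxRecDepth 100000 in
theorem cert_ne : ∀ b c : ZMod 3, b ≠ c →
    ((c - b) • (E c 5 * E c 5 * (E c 5 * E c 5 - E c 1 * (E c 5 * E c 5) * (E c 1 * (E c 5 * E c 5)))))
        * E c 0
      + (-((c - b) • (E c 5 * E c 5 * (E c 1 * (E c 5 * E c 5))))) * E c 6
      + ((c - b) • (E c 5 * E c 5)) * (E c 3 - b • E c 5) = 1 := by
  decide +kernel

set_option maxRecDepth 100000 in
theorem cert_four : ∀ c : ZMod 3,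
    ((E c 1 + (E c 6 + E c 1 * mQ c) * E c 1 + E c 1 * (E c 6 + E c 1 * mQ c) + E c 5 * mQ c
        + c • (E c 5 * E c 5)) * (E c 5 * E c 5)) * E c 0
      + E c 5 * E c 2
      + (1 + (E c 6 + E c 1 * mQ c)) * (E c 6 + 1) = 1 := by
  intro c
  rw [mQ_eq]
  revert c
  decide +kernel

end Pool.Agent.Work.MP_52c914_al
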